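import Pool.Agent.Helper85_CYD.StG
import Pool.Agent.Helper85_CYD.St1

/-! # CYD, module GEN -/

set_option autoImplicit false

open Polynomial IsLocalRing

namespace Pool.Agent.CYD

namespace H41

theorem mem_of_pow_eq_one {K : Type} [Field K] (A : ValuationSubring K) {c : K} {q : ℕ}
    (hq : 0 < q) (hc : c ^ q = 1) : c ∈ A := by
  have hc0 : c ≠ 0 := by
    rintro rfl
    rw [zero_pow hq.ne'] at hc
    exact zero_ne_one hc
  rcases A.mem_or_inv_mem c with h | h
  · exact h
  · have h1 : c = (c⁻¹) ^ (q - 1) := by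
      have h2 : c * c ^ (q - 1) = 1 := by
        rw [← pow_succ', Nat.sub_add_cancel hq]
        exact hc
      rw [inv_pow]
      exact eq_inv_of_mul_eq_one_left h2
    rw [h1]
    exact pow_mem h _

theorem prim_coe {K : Type} [Field K] (A : ValuationSubring K) {c : A} {n : ℕ} :
    IsPrimitiveRoot (c : K) n ↔ IsPrimitiveRoot c n :=
  IsPrimitiveRoot.map_iff_of_injective (f := A.subtype) Subtype.coe_injective

theorem prim_mul {K : Type} [Field K] {c w : K} {p q : ℕ} (hp : p.Prime) (hq : q.Prime)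
    (hpq : p ≠ q) (hc : IsPrimitiveRoot c q) (hw : IsPrimitiveRoot w p) :
    IsPrimitiveRoot (c * w) (p * q) := by
  rw [IsPrimitiveRoot.iff_orderOf]
  have h1 : orderOf c = q := hc.eq_orderOf.symm
  have h2 : orderOf w = p := hw.eq_orderOf.symm
  have h3 : (orderOf c).Coprime (orderOf w) := by
    rw [h1, h2]
    exact (Nat.coprime_primes hq hp).2 hpq.symm
  rw [(Commute.all c w).orderOf_mul_eq_mul_orderOf_of_coprime h3, h1, h2, mul_comm]

end H41

open H41

/-- GEN. -/
theorem gen (hKro : KroStmt) (hGal : GalStmt) (hRam : RamStmt) : GenStmt := by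
  intro p q hp hq hp2 hq2 hpq K _ _ _ Z e hG hAbs hAw hLoc c w hc hw k hk
  have hcp : ∀ {x : K} {n i : ℕ}, n.Prime → ¬ n ∣ i → IsPrimitiveRoot x n →
      IsPrimitiveRoot (x ^ i) n := by
    intro x n i hn hi hx
    exact hx.pow_of_coprime i ((Nat.Prime.coprime_iff_not_dvd hn).2 hi).symm
  have hp1 : ¬ p ∣ 1 := by
    rw [Nat.dvd_one]
    exact hp.one_lt.ne'
  have hw1 : w - 1 ≠ 0 := sub_ne_zero.2 (hw.ne_one hp.one_lt)
  have hwk := hcp hp hk hw
  -- the local form of the quotient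
  have hloc : ∀ (A : ValuationSubring K) (d v : A), (v : K) = w → Loc p q A d v →
      ∃ C : ResidueField A, C ≠ 0 ∧ ∃ θ θ' : A, residue A θ = (k : ResidueField A) ^ (e A d) * C ∧
        residue A θ' = C ∧ Z (d : K) (w ^ k) = Z (d : K) w * ((θ : K) / (θ' : K)) ∧
        (θ' : K) ≠ 0 := by
    intro A d v hv hL
    obtain ⟨C, hC, h⟩ := hLoc A d v hL
    obtain ⟨θ, h1, h2⟩ := h k hk
    obtain ⟨θ', h3, h4⟩ := h 1 hp1
    rw [Nat.cast_one, one_zpow, one_mul] at h3
    rw [pow_one] at h4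
    rw [hv] at h2 h4
    have hθ' : (θ' : K) ≠ 0 := by
      intro h5
      have h6 : θ' = 0 := Subtype.ext h5
      rw [h6, map_zero] at h3
      exact hC h3.symm
    refine ⟨C, hC, θ, θ', h1, h3, ?_, hθ'⟩
    rw [h2, h4]
    field_simp
  -- the quotient is a root of unity
  have hZ0 : Z c w ≠ 0 := by
    intro h0
    have := hAbs (Classical.arbitrary (K →+* ℂ)) c w hc hw
    rw [h0, map_zero, norm_zero] at this
    exact zero_ne_one this
  have hmem : ∀ A : ValuationSubring K, Z c (w ^ k) / Z c w ∈ A := by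
    intro A
    by_cases hu : IsUnit (p : A)
    · rw [div_eq_mul_inv]
      exact mul_mem (hAw A hu c (w ^ k) hc hwk).1 (hAw A hu c w hc hw).2
    · have hmI : (p : A) ∈ maximalIdeal A := (mem_maximalIdeal _).2 hu
      have hcA : c ∈ A := mem_of_pow_eq_one A hq.pos hc.pow_eq_one
      have hwA : w ∈ A := mem_of_pow_eq_one A hp.pos hw.pow_eq_one
      obtain ⟨C, hC, θ, θ', h1, h2, h3, h4⟩ := hloc A ⟨c, hcA⟩ ⟨w, hwA⟩ rfl
        ⟨hmI, (prim_coe A).1 hc, (prim_coe A).1 hw⟩
      have h3' : Z c (w ^ k) = Z c w * ((θ : K) / (θ' : K)) := h3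
      rw [h3', mul_div_cancel_left₀ _ hZ0]
      have hu' : IsUnit θ' := by
        rw [← residue_ne_zero_iff_isUnit, h2]
        exact hC
      obtain ⟨t, ht⟩ := hu'.exists_right_inv
      have h5 : (θ : K) / (θ' : K) = ((θ * t : A) : K) := by
        rw [div_eq_iff h4]
        have h6 : ((θ' * t : A) : K) = 1 := by rw [ht]; rfl
        push_cast at h6 ⊢
        linear_combination (-(θ : K)) * h6
      rw [h5]
      exact (θ * t).2
  have habs : ∀ φ : K →+* ℂ, ‖φ (Z c (w ^ k) / Z c w)‖ = 1 := by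
    intro φ
    rw [map_div₀, norm_div, hAbs φ c _ hc hwk, hAbs φ c w hc hw, div_one]
  have hodd : Odd (p * q) := (hp.odd_of_ne_two hp2).mul (hq.odd_of_ne_two hq2)
  obtain ⟨s, i, hs, hy⟩ := hKro (p * q) hodd K _ (c * w) (prim_mul hp hq hpq hc hw) hmem habs
  refine ⟨s, i, hs, ?_⟩
  intro A c' w' hc' hw' hL j hj
  obtain ⟨σ, hσc, hσw⟩ := hGal p q hp hq hpq K c w (c ^ j) w hc hw (hcp hq hj hc) hw
  have hy' : Z (c ^ j) (w ^ k) = Z (c ^ j) w * (s * (c ^ j * w) ^ i) := by
    have h1 : Z c (w ^ k) = Z c w * (s * (c * w) ^ i) := by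
      rw [← hy, mul_div_cancel₀ _ hZ0]
    have h2 := congrArg σ h1
    rw [map_mul, map_mul, map_pow, map_mul, hG, hG, map_pow, hσc, hσw, map_intCast] at h2
    exact h2
  have hL' : Loc p q A (c' ^ j) w' := by
    refine ⟨hL.hm, ?_, hL.hw⟩
    exact hL.hc.pow_of_coprime j ((Nat.Prime.coprime_iff_not_dvd hq).2 hj).symm
  obtain ⟨C, hC, θ, θ', h1, h2, h3, h4⟩ := hloc A (c' ^ j) w' hw' hL'
  have hcj : ((c' ^ j : A) : K) = c ^ j := by
    rw [SubmonoidClass.coe_pow, hc']
  rw [hcj] at h3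
  have hZj : Z (c ^ j) w ≠ 0 := by
    intro h0
    have := hAbs (Classical.arbitrary (K →+* ℂ)) (c ^ j) w (hcp hq hj hc) hw
    rw [h0, map_zero, norm_zero] at this
    exact zero_ne_one this
  have h5 : (θ : K) = (θ' : K) * (s * (c ^ j * w) ^ i) := by
    rw [h3] at hy'
    have h6 := mul_left_cancel₀ hZj hy'
    rw [div_eq_iff h4] at h6
    rw [h6]
    ring
  have h6 : θ = θ' * (s * (c' ^ j * w') ^ i) := by
    apply Subtype.ext
    push_cast
    rw [h5, hc', hw']
  have hw1' : residue A w' = 1 := by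
    have h7 := (hRam K A p w' hp hL.hm hL.hw).1
    have h8 : residue A (w' - 1) = 0 := (residue_eq_zero_iff _).2 h7
    rw [map_sub, map_one, sub_eq_zero] at h8
    exact h8
  have h7 := congrArg (residue A) h6
  rw [h1, map_mul, h2, map_mul, map_pow, map_mul, map_pow, hw1', mul_one, map_intCast,
    mul_comm C, ← pow_mul] at h7
  exact mul_right_cancel₀ hC h7

end Pool.Agent.CYD
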