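import Pool.Agent.Helper85_CYD.StG

/-! # CYD, module UNR: `p` is unramified in the field of the `m`-th roots of unity -/

set_option autoImplicit false

open Polynomial IsLocalRing

namespace Pool.Agent.CYD

namespace H41

theorem exists_eq_C_mul {p : ℕ} {F : ℤ[X]} (h : F.map (Int.castRingHom (ZMod p)) = 0) :
    ∃ E : ℤ[X], F = C (p : ℤ) * E := by
  have : C (p : ℤ) ∣ F := by
    rw [Polynomial.C_dvd_iff_dvd_coeff]
    intro i
    have h1 : (F.map (Int.castRingHom (ZMod p))).coeff i = 0 := by rw [h, coeff_zero]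
    rw [coeff_map] at h1
    exact (ZMod.intCast_zmod_eq_zero_iff_dvd _ _).1 h1
  exact this

theorem aeval_int {R : Type} [CommRing R] [inst : Algebra ℤ R] (c : R) (F : ℤ[X]) :
    aeval c F = eval₂ (Int.castRingHom R) c F := by
  rw [aeval_def]
  congr 1
  exact RingHom.ext_int _ _

theorem map_eval_int {R S : Type} [CommRing R] [CommRing S] (φ : R →+* S) (c : R) (F : ℤ[X]) :
    φ (eval₂ (Int.castRingHom R) c F) = eval₂ (Int.castRingHom S) (φ c) F := by
  rw [hom_eval₂]
  congr 1
  exact RingHom.ext_int _ _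

end H41

open H41

/-- UNR: `p` is unramified in the field of the `m`-th roots of unity, `p ∤ m`. -/
theorem unr : UnrStmt := by
  intro K _ _ A p m c F hp hpm hm hc hF
  have : Fact p.Prime := ⟨hp⟩
  have hp0 : ((p : ℕ) : ResidueField A) = 0 := by
    have h1 : residue A (p : A) = 0 := (residue_eq_zero_iff _).2 hm
    rwa [map_natCast] at h1
  have : CharP (ResidueField A) p := (CharP.charP_iff_prime_eq_zero hp).2 hp0
  let _ := ZMod.algebra (ResidueField A) p
  rw [aeval_int] at hF
  rw [aeval_int]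
  set a := residue A c with ha
  have ham : a ^ m = 1 := by rw [ha, ← map_pow, hc, map_one]
  have hred : ∀ G : ℤ[X], aeval a (G.map (Int.castRingHom (ZMod p))) =
      eval₂ (Int.castRingHom (ResidueField A)) a G := by
    intro G
    rw [aeval_def, eval₂_map]
    congr 1
    exact RingHom.ext_int _ _
  have hm0 : m ≠ 0 := fun h => hpm (h ▸ dvd_zero p)
  have hmz : (m : ZMod p) ≠ 0 := by
    rw [Ne, ZMod.natCast_eq_zero_iff]
    exact hpm
  have hroot : aeval a (X ^ m - 1 : (ZMod p)[X]) = 0 := by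
    simp [ham]
  have hint : IsIntegral (ZMod p) a :=
    ⟨X ^ m - 1, monic_X_pow_sub_C 1 hm0, by
      rw [← aeval_def]
      simpa using hroot⟩
  obtain ⟨q2, hq2⟩ := minpoly.dvd (ZMod p) a hroot
  have hsep : (X ^ m - 1 : (ZMod p)[X]).Separable := X_pow_sub_one_separable_iff.2 hmz
  have hq2a : aeval a q2 ≠ 0 := by
    intro h
    obtain ⟨q3, hq3⟩ := minpoly.dvd (ZMod p) a h
    have h1 : minpoly (ZMod p) a * minpoly (ZMod p) a ∣ X ^ m - 1 := by
      rw [hq2, hq3, ← mul_assoc]
      exact dvd_mul_right _ _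
    exact minpoly.not_isUnit (ZMod p) a (hsep.squarefree _ h1)
  -- lifts
  obtain ⟨P, hP⟩ := Polynomial.map_surjective (Int.castRingHom (ZMod p))
    (ZMod.intCast_surjective (n := p)) (minpoly (ZMod p) a)
  obtain ⟨P2, hP2⟩ := Polynomial.map_surjective (Int.castRingHom (ZMod p))
    (ZMod.intCast_surjective (n := p)) q2
  obtain ⟨E, hE⟩ := exists_eq_C_mul (p := p) (F := X ^ m - 1 - P * P2) (by
    simp only [Polynomial.map_sub, Polynomial.map_mul, Polynomial.map_pow, Polynomial.map_X,
      Polynomial.map_one, hP, hP2, hq2, sub_self])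
  have hF1 : aeval a (F.map (Int.castRingHom (ZMod p))) = 0 := by rw [hred, hF]
  obtain ⟨f1, hf1⟩ := minpoly.dvd (ZMod p) a hF1
  obtain ⟨F1, hF1'⟩ := Polynomial.map_surjective (Int.castRingHom (ZMod p))
    (ZMod.intCast_surjective (n := p)) f1
  obtain ⟨F2, hF2⟩ := exists_eq_C_mul (p := p) (F := F - P * F1) (by
    simp only [Polynomial.map_sub, Polynomial.map_mul, hP, hF1', hf1, sub_self])
  have hunit : IsUnit (eval₂ (Int.castRingHom A) c P2) := by
    rw [← residue_ne_zero_iff_isUnit, map_eval_int, ← ha, ← hred, hP2]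
    exact hq2a
  have h1 : (p : A) ∣ eval₂ (Int.castRingHom A) c P := by
    have h2 : eval₂ (Int.castRingHom A) c (X ^ m - 1 - P * P2 : ℤ[X]) =
      eval₂ (Int.castRingHom A) c (C (p : ℤ) * E) := by rw [hE]
    simp only [eval₂_sub, eval₂_mul, eval₂_pow, eval₂_X, eval₂_one, hc, sub_self, zero_sub,
      eq_intCast, Int.cast_natCast, eval₂_natCast] at h2
    have h3 : (p : A) ∣ eval₂ (Int.castRingHom A) c P * eval₂ (Int.castRingHom A) c P2 := by
      refine ⟨- eval₂ (Int.castRingHom A) c E, ?_⟩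
      linear_combination -h2
    exact hunit.dvd_mul_right.1 h3
  have h5 : F = P * F1 + C (p : ℤ) * F2 := by rw [← hF2]; ring
  rw [h5]
  simp only [eval₂_add, eval₂_mul, eq_intCast, Int.cast_natCast, eval₂_natCast]
  exact dvd_add (h1.mul_right _) (dvd_mul_right _ _)

end Pool.Agent.CYD
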