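import Pool.Agent.Helper85_CYD.StG
import Pool.Agent.Helper85_CYD.St1

/-! # CYD, module VAL -/

set_option autoImplicit false

open Polynomial IsLocalRing

namespace Pool.Agent.CYD

namespace H41

theorem Loc.prim {p q : ℕ} (hp : p.Prime) (hq : q.Prime) (hpq : p ≠ q) {K : Type} [Field K]
    [CharZero K] {A : ValuationSubring K} {c w : A} (hL : Loc p q A c w) :
    IsPrimitiveRoot (residue A c) q := by
  have h1 : (residue A c) ^ q = 1 := by rw [← map_pow, hL.hc.pow_eq_one, map_one]
  have h2 : residue A c ≠ 1 := by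
    intro h
    have h3 := hL.hc.geom_sum_eq_zero hq.one_lt
    have h4 := congrArg (residue A) h3
    rw [map_sum, map_zero] at h4
    simp only [map_pow, h, one_pow, Finset.sum_const, Finset.card_range, nsmul_eq_mul,
      mul_one] at h4
    have h5 : ((p : ℕ) : ResidueField A) = 0 := by
      have h6 : residue A (p : A) = 0 := (residue_eq_zero_iff _).2 hL.hm
      rwa [map_natCast] at h6
    have h6 : IsCoprime (p : ℤ) (q : ℤ) :=
      Nat.isCoprime_iff_coprime.2 ((Nat.coprime_primes hp hq).2 hpq)
    obtain ⟨a, b, hab⟩ := h6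
    have h7 := congrArg (Int.cast : ℤ → ResidueField A) hab
    push_cast at h7
    rw [h5, h4, mul_zero, mul_zero, add_zero] at h7
    exact zero_ne_one h7
  have h3 : orderOf (residue A c) = q := by
    have := (Nat.dvd_prime hq).1 (orderOf_dvd_of_pow_eq_one h1)
    rcases this with h | h
    · exact absurd (orderOf_eq_one_iff.1 h) h2
    · exact h
  exact IsPrimitiveRoot.iff_orderOf.2 h3

theorem Loc.inv {p q : ℕ} (hq : q.Prime) {K : Type} [Field K]
    {A : ValuationSubring K} {c w : A} (hL : Loc p q A c w) : Loc p q A (c ^ (q - 1)) w := by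
  refine ⟨hL.hm, hL.hc.pow_of_coprime _ ?_, hL.hw⟩
  have h1 : (q - 1).Coprime (q - 1 + 1) := (Nat.coprime_self_add_right (m := q - 1) (n := 1)).2
    (Nat.coprime_one_right _)
  rwa [Nat.sub_add_cancel hq.pos] at h1

theorem charP_residue {p : ℕ} (hp : p.Prime) {K : Type} [Field K] {A : ValuationSubring K}
    (h : (p : A) ∈ maximalIdeal A) : CharP (ResidueField A) p := by
  have hp0 : ((p : ℕ) : ResidueField A) = 0 := by
    have h1 : residue A (p : A) = 0 := (residue_eq_zero_iff _).2 h
    rwa [map_natCast] at h1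
  exact (CharP.charP_iff_prime_eq_zero hp).2 hp0

end H41

open H41

/-- VAL: the possible values of the exponents. -/
theorem val (hSum : SumStmt) (hEis : EisStmt) : ValStmt := by
  intro n p q g h F K _ _ A c w hL
  have _ := charP_residue F.hp hL.hm
  have key : ∀ d : A, Loc p q A d w → mu A g d + mu A h d = p - 2 := fun d hd =>
    (hSum n p q g h F.toFg F.hp F.hn (ResidueField A) (residue A d)
      (Loc.prim F.hp F.hq F.hpq hd)).2
  have hL' := Loc.inv F.hq hL
  have h1 := key c hL
  have h2 := key _ hL'
  have h3 := F.hp.two_le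
  unfold ex
  constructor
  · rw [abs_le]
    omega
  · intro h4 h5
    have h6 := hEis n p q g h F K A c w hL h4
    have h7 := hEis n p q g h F K A _ w hL' (by rwa [map_pow])
    omega

end Pool.Agent.CYD
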