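import Pool.Agent.Helper85_CYD.StG
import Pool.Agent.Helper85_CYD.St1

/-! # CYD, module WMU -/

set_option autoImplicit false

open Polynomial IsLocalRing

namespace Pool.Agent.CYD

/-- WMU: multiplicity of the Wronskian. -/
theorem wmu : WmuStmt := by
  intro L _ G H ε b j s M hε hS hG
  set S := X ^ j * G - C ε * H with hSdef
  have hS' : (X - C b) ^ (M - 1) ∣ derivative S := pow_sub_one_dvd_derivative_of_pow_dvd hS
  have hG' : (X - C b) ^ (s - 1) ∣ derivative G := pow_sub_one_dvd_derivative_of_pow_dvd hG
  have hXj : X * derivative (X ^ j : L[X]) = C (j : L) * X ^ j := by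
    rcases j with _ | j
    · simp
    · rw [derivative_X_pow, Nat.add_sub_cancel]
      ring
  have hid : C (j : L) * G * H + H * (X * derivative G) - G * (X * derivative H) =
      C ε⁻¹ * (X * (G * derivative S) - X * (derivative G * S) - C (j : L) * (G * S)) := by
    have h1 : C ε⁻¹ * C ε = (1 : L[X]) := by
      rw [← C_mul, inv_mul_cancel₀ hε, C_1]
    have h2 : derivative S = derivative (X ^ j : L[X]) * G + X ^ j * derivative G -
        C ε * derivative H := by
      rw [hSdef]
      simp only [derivative_sub, derivative_mul, derivative_C, zero_mul, zero_add]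
    rw [h2, hSdef]
    linear_combination (-(C (j : L) * G * H + H * (X * derivative G) - G * (X * derivative H))) * h1
      - (C ε⁻¹ * G * G) * hXj
  rw [hid]
  refine Dvd.dvd.mul_left ?_ _
  have h1 : (X - C b) ^ (s + M - 1) ∣ G * derivative S := by
    have h2 := mul_dvd_mul hG hS'
    rw [← pow_add] at h2
    exact (pow_dvd_pow _ (by omega)).trans h2
  have h2 : (X - C b) ^ (s + M - 1) ∣ derivative G * S := by
    have h2 := mul_dvd_mul hG' hS
    rw [← pow_add] at h2
    exact (pow_dvd_pow _ (by omega)).trans h2
  have h3 : (X - C b) ^ (s + M - 1) ∣ G * S := by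
    have h2 := mul_dvd_mul hG hS
    rw [← pow_add] at h2
    exact (pow_dvd_pow _ (by omega)).trans h2
  exact ((h1.mul_left _).sub (h2.mul_left _)).sub (h3.mul_left _)

end Pool.Agent.CYD
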